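import Pool.Agent.KS6_77.SP.Quot

/-!
Forms of degree `3 δ` with arbitrary multiplicities at ten special points.
-/

noncomputable section

open PowerSeries

namespace Pool.Agent.KS6_77.SP

open Pool.Agent.H957R2.SE

variable {k : Type*} [Field k]

theorem mult_id' (ξ : kˣ) (δ i : ℕ) (hi : i ≤ δ) :
    (LaurentPolynomial.C ((-1 : k) ^ (3 * δ - 3 * i)) *
      LaurentPolynomial.T (-(3 * ((3 * δ - 3 * i : ℕ) : ℤ)))) *
      (LaurentPolynomial.C (-((ξ ^ (45 : ℤ) : kˣ) : k)) * LaurentPolynomial.T (-9)) ^ i *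
      (LaurentPolynomial.C (-((ξ ^ (-45 : ℤ) : kˣ) : k))) ^ i *
      (LaurentPolynomial.C (-((1 : kˣ) : k))) ^ (δ - i)
    = ((uC 1 * uT ^ (-(9 * δ : ℤ)) : (LP k)ˣ) : LP k) := by
  have h1 : ((ξ ^ (45 : ℤ) : kˣ) : k) * ((ξ ^ (-45 : ℤ) : kˣ) : k) = 1 := by
    rw [← Units.val_mul, ← zpow_add]; simp
  obtain ⟨e, he⟩ := Nat.exists_eq_add_of_le hi
  have e1 : 3 * δ - 3 * i = 3 * e := by omega
  have e2 : δ - i = e := by omega
  rw [e1, e2, mul_pow, LaurentPolynomial.T_pow, uC_one, one_mul, uT_zpow, Units.val_one]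
  have h2 : (LaurentPolynomial.T (-(3 * ((3 * e : ℕ) : ℤ))) : LP k) * LaurentPolynomial.T ((i : ℤ) * -9)
      = LaurentPolynomial.T (-(9 * δ : ℤ)) := by
    rw [← LaurentPolynomial.T_add]; congr 1; push_cast; omega
  have h3 : (LaurentPolynomial.C (-((ξ ^ (45 : ℤ) : kˣ) : k)) : LP k) ^ i
      * (LaurentPolynomial.C (-((ξ ^ (-45 : ℤ) : kˣ) : k))) ^ i = 1 := by
    rw [← mul_pow, ← map_mul, neg_mul_neg, h1, map_one, one_pow]
  have h4 : (LaurentPolynomial.C ((-1 : k) ^ (3 * e)) : LP k) * (LaurentPolynomial.C (-(1 : k))) ^ e = 1 := by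
    rw [← map_pow, ← map_mul, ← pow_add]
    have : (-1 : k) ^ (3 * e + e) = 1 := by
      rw [show 3 * e + e = 2 * (2 * e) by ring, pow_mul]; simp
    rw [this, map_one]
  rw [← h2]
  generalize (LaurentPolynomial.C (-((ξ ^ (45 : ℤ) : kˣ) : k)) : LP k) = a1 at h3 ⊢
  generalize (LaurentPolynomial.C (-((ξ ^ (-45 : ℤ) : kˣ) : k)) : LP k) = a2 at h3 ⊢
  generalize (LaurentPolynomial.C ((-1 : k) ^ (3 * e)) : LP k) = a3 at h4 ⊢
  generalize (LaurentPolynomial.C (-(1 : k)) : LP k) = a4 at h4 ⊢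
  generalize (LaurentPolynomial.T (-(3 * ((3 * e : ℕ) : ℤ))) : LP k) = t1
  generalize (LaurentPolynomial.T ((i : ℤ) * -9) : LP k) = t2
  linear_combination (t1 * t2 * a3 * a4 ^ e) * h3 + t1 * t2 * h4

theorem QP_HH' (a ξ : kˣ) (δ w : ℕ) (hw : w ≤ δ) (lc qc : PowerSeries k)
    (G : ℕ → MvPolynomial (Fin 3) (PowerSeries k))
    (hG1 : ∀ i ≤ w, (G i).IsHomogeneous (3 * δ - 3 * i)) :
    QP (10 * δ) 0 ((uC 1 * uT ^ (-(9 * δ : ℤ)) : (LP k)ˣ) : LP k)
      (HH a (ξ ^ (-45 : ℤ)) δ (3 * δ) w lc qc (QQ ξ) G) := by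
  unfold HH
  apply QP.sum
  intro i hi
  rw [Finset.mem_range] at hi
  have h1 := QP_zUV (QP.KK (lc ^ i * qc ^ (3 * δ - i)))
  have h2 := h1.mul (QP_zUV (QP_evE a _ (G i) (hG1 i (by omega))))
  have h3 := h2.mul ((QP_zUV (QP_QQ ξ)).pow i)
  have h4 := h3.mul ((QP_AA (ξ ^ (-45 : ℤ))).pow i)
  have h5 := h4.mul ((QP_AA (1 : kˣ)).pow (δ - i))
  refine QP_congr' h5 ?_ ?_ ?_
  · push_cast [Nat.cast_sub (show 3 * i ≤ 3 * δ by omega), Nat.cast_sub (show i ≤ δ by omega)]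
    ring
  · ring
  · rw [← mult_id' ξ δ i (by omega), map_one, neg_zero, LaurentPolynomial.T_zero, one_mul, one_mul]

/-- the core contradiction -/
theorem core' (a : kˣ) (ha : a ^ 2 ≠ 1) (g : Fin 9 → PowerSeries k)
    (hg : cub (fun i => KK (g i)) (Ex a) Ey (Ez a) = 0)
    (ξ : kˣ) (hξ : ∀ i : ℤ, i ≠ 0 → ξ ^ i ≠ 1)
    (hlam : ∀ j, EV (ξ ^ ef j) (lam a g) ≠ 0)
    (hz : ∀ j, EV (ξ ^ ef j) (Ez a) ≠ 0) (δ : ℕ) (hδ : 0 < δ) (m : Fin 10 → ℕ)
    (hm : ∑ i, m i + 1 ≤ 10 * δ) (hcon : 333 * (δ : ℤ) ≤ 35 * (∑ i, (m i : ℤ)) + m 0)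
    (u : ℕ × ℕ → Polynomial (PowerSeries k))
    (hu0 : Van (3 * δ) (m 0) u (Polynomial.C (EV (ξ ^ ef 0) (Ex a)))
      (Polynomial.C (EV (ξ ^ ef 0) Ey) + Polynomial.X) (Polynomial.C (EV (ξ ^ ef 0) (Ez a))))
    (hu : ∀ j, j ≠ 0 → Van (3 * δ) (m j) u
      (Polynomial.C (EV (ξ ^ ef j) (Ex a))) (Polynomial.C (EV (ξ ^ ef j) Ey))
      (Polynomial.C (EV (ξ ^ ef j) (Ez a))))
    (p₁ : ℕ × ℕ) (hp₁ : p₁ ∈ tri (3 * δ)) : (u p₁).coeff 0 = 0 := by
  by_contra hne
  have hF0 : FF (3 * δ) (fun p => (u p).coeff 0) ≠ 0 := by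
    intro h
    apply hne
    rw [← coeff_FF (3 * δ) (fun p => (u p).coeff 0) p₁ hp₁, h, MvPolynomial.coeff_zero]
  obtain ⟨w, G, h3, hG1, hG2, i₁, hi₁, hne₁⟩ := wlem a ha g hg (3 * δ)
    (fun c p => (u p).coeff c) hF0
  have hwN : w ≤ δ := by omega
  have he0 : ef 0 = -45 := ef_zero
  set c : kˣ := ξ ^ ef 0 with hc
  have hc1 : c ≠ 1 := hξ _ (by rw [he0]; norm_num)
  -- orders of the `G i` at the nine points
  have hord : ∀ j, j ≠ 0 → ∀ i ≤ w, lin (ξ ^ ef j) ^ (m j - i) ∣ evE a (G i) := by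
    intro j hj0 i hi
    exact order_G a g hg (ξ ^ ef j) (hlam j) (hz j) (3 * δ) (m j) i _
      ((hu j hj0).coeff (w - i)) (G i) (hG2 i hi)
  have hQd : ∀ j, j ≠ 0 → lin (ξ ^ ef j) ∣ QQ ξ := by
    intro j hj0
    obtain ⟨i, rfl⟩ := Fin.exists_succ_eq.mpr hj0
    have he : ef i.succ = ((i.val + 1 : ℕ) : ℤ) := by rw [ef_succ]; push_cast; rfl
    rw [he]
    exact lin_dvd_QQ ξ (i.val + 1) (by rw [Finset.mem_Icc]; omega)
  have hfib := fibre_c a g hg c (QQ ξ) (hlam 0) (hz 0) δ (3 * δ) (m 0) w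
    (by omega) hwN h3 u hu0 G hG1 hG2
  set lc := EV c (lam a g) with hlc
  set qc := EV c (QQ ξ) * PowerSeries.C ((c⁻¹ : kˣ) : k) with hqc
  have hlc0 : lc ≠ 0 := hlam 0
  have hQ0 : EV c (QQ ξ) ≠ 0 := by
    unfold QQ
    rw [map_prod, Finset.prod_ne_zero_iff]
    intro j hj
    rw [EV_theta]
    apply Th_ne_zero
    intro h
    have h1 : c * (ξ ^ (j : ℤ))⁻¹ = 1 := Units.ext h
    rw [hc, he0, ← zpow_neg, ← zpow_add] at h1
    refine hξ _ ?_ h1
    omega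
  have hqc0 : qc ≠ 0 := by
    rw [hqc]
    apply mul_ne_zero hQ0
    intro h
    have := congrArg PowerSeries.constantCoeff h
    rw [PowerSeries.constantCoeff_C, map_zero] at this
    exact (c⁻¹).ne_zero this
  have hQf0 : QQ ξ ≠ 0 := by
    intro h
    rw [h, map_zero] at hQ0
    exact hQ0 rfl
  have hzero : HH a c δ (3 * δ) w lc qc (QQ ξ) G = 0 := by
    apply H_zero' ξ hξ δ hδ m hm hcon
    · exact Sw_HH _ _ _ _ _ _ _ _ _
    · have hqp := QP_HH' a ξ δ w hwN lc qc G hG1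
      rw [← he0, ← hc] at hqp
      exact hqp
    · intro j
      by_cases hj0 : j = 0
      · subst hj0
        exact hfib
      · exact HH_fibre a c _ _ _ _ _ _ _ _ _ (hQd j hj0) (hord j hj0)
    · intro j
      by_cases hj0 : j = 0
      · subst hj0
        exact HH_order_c a c _ _ _ hwN _ _ _ _
      · exact HH_order a c _ _ _ (m j) hwN _ _ _ _ _ (hQd j hj0) (hord j hj0)
  exact hne₁ (HH_eq_zero a c hc1 _ _ _ hwN _ _ hlc0 hqc0 _ hQf0 G hzero i₁ hi₁)

theorem special' (y : kˣ) (hy : ∀ i : ℤ, i ≠ 0 → y ^ i ≠ 1) :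
    ∃ P : Fin 10 → Fin 3 → Polynomial (PowerSeries k), (∀ i, P i 2 ≠ 0) ∧
      ∀ δ : ℕ, 0 < δ → ∀ m : Fin 10 → ℕ, ∑ i, m i + 1 ≤ 10 * δ →
        333 * (δ : ℤ) ≤ 35 * (∑ i, (m i : ℤ)) + m 0 → ∀ u : ℕ × ℕ → Polynomial (PowerSeries k),
        (∀ i, Van (3 * δ) (m i) u (P i 0) (P i 1) (P i 2)) →
        ∀ p ∈ tri (3 * δ), u p = 0 := by
  have ha : y ^ 2 ≠ 1 := by
    have := hy 2 (by norm_num)
    rwa [zpow_ofNat] at this
  obtain ⟨g, hg, hg3⟩ := exists_cub y ha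
  -- the test function
  have hy1 : (y : k) ≠ 1 := by
    intro h
    apply hy 1 (by norm_num)
    rw [zpow_one]; exact Units.ext h
  have hyi : ((y⁻¹ : kˣ) : k) ≠ 1 := by
    intro h
    apply hy (-1) (by norm_num)
    rw [zpow_neg_one]; exact Units.ext h
  have hy2 : (((y ^ (-2 : ℤ))⁻¹ : kˣ) : k) ≠ 1 := by
    intro h
    apply hy 2 (by norm_num)
    have h1 : (y ^ (-2 : ℤ))⁻¹ = 1 := Units.ext h
    rw [← zpow_neg] at h1
    simpa using h1
  have hccEV : ∀ (x : kˣ) (f : RR k), PowerSeries.constantCoeff (EV x f)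
      = LaurentPolynomial.eval₂ (RingHom.id k) x (PowerSeries.constantCoeff f) := by
    intro x f
    unfold EV
    rw [← PowerSeries.coeff_zero_eq_constantCoeff_apply, PowerSeries.coeff_map,
      PowerSeries.coeff_zero_eq_constantCoeff_apply]
  set l : LP k := PowerSeries.constantCoeff (lam y g * Ez y) with hl
  have hl0 : l ≠ 0 := by
    intro h0
    have h1 := hccEV 1 (lam y g * Ez y)
    rw [← hl, h0, map_zero] at h1
    have hx0 : EV (1 : kˣ) (Ex y) = 0 := by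
      unfold Ex
      rw [map_mul, map_mul, EV_theta, inv_one, mul_one, Th_one, zero_mul, zero_mul]
    have hy0 : EV (1 : kˣ) (Ey : RR k) = 0 := by
      unfold Ey
      rw [map_pow, EV_theta, inv_one, mul_one, Th_one, zero_pow (by norm_num)]
    have hlam1 : EV (1 : kˣ) (lam y g) = g 3 * EV (1 : kˣ) (Ez y) ^ 2 := by
      unfold lam
      rw [map_dcub, hx0, hy0]
      unfold dcub
      simp only [EV_KK]
      ring
    rw [map_mul, hlam1] at h1
    have hz1 : PowerSeries.constantCoeff (EV (1 : kˣ) (Ez y)) ≠ 0 := by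
      unfold Ez
      rw [map_mul, map_pow, EV_theta, EV_theta, map_mul, map_pow, constantCoeff_Th,
        constantCoeff_Th, one_mul, one_mul]
      apply mul_ne_zero
      · apply pow_ne_zero
        intro h; exact hyi (by linear_combination -h)
      · intro h; exact hy2 (by linear_combination -h)
    rw [map_mul, map_mul, map_pow] at h1
    exact mul_ne_zero (mul_ne_zero hg3 (pow_ne_zero _ hz1)) hz1 h1
  obtain ⟨ξ, hξ, hval⟩ := exists_xi y hy l hl0
  have hprod : ∀ j : Fin 10, EV (ξ ^ ef j) (lam y g * Ez y) ≠ 0 := by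
    intro j h
    apply hval j.val (Finset.mem_range.mpr j.isLt)
    have h' : EV (ξ ^ ee j.val) (lam y g * Ez y) = 0 := h
    rw [hl, ← hccEV, h', map_zero]
  have hlam : ∀ j : Fin 10, EV (ξ ^ ef j) (lam y g) ≠ 0 := by
    intro j h
    apply hprod j
    rw [map_mul, h, zero_mul]
  have hz : ∀ j : Fin 10, EV (ξ ^ ef j) (Ez y) ≠ 0 := by
    intro j h
    apply hprod j
    rw [map_mul, h, mul_zero]
  refine ⟨fun i => if i = 0 then
      ![Polynomial.C (EV (ξ ^ ef 0) (Ex y)), Polynomial.C (EV (ξ ^ ef 0) Ey) + Polynomial.X,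
        Polynomial.C (EV (ξ ^ ef 0) (Ez y))]
    else ![Polynomial.C (EV (ξ ^ ef i) (Ex y)), Polynomial.C (EV (ξ ^ ef i) Ey),
        Polynomial.C (EV (ξ ^ ef i) (Ez y))], ?_, ?_⟩
  · intro i
    by_cases hi : i = 0
    · simp only [hi, if_true]
      show Polynomial.C (EV (ξ ^ ef 0) (Ez y)) ≠ 0
      rw [Polynomial.C_ne_zero]
      exact hz 0
    · simp only [hi, if_false]
      show Polynomial.C (EV (ξ ^ ef i) (Ez y)) ≠ 0
      rw [Polynomial.C_ne_zero]
      exact hz i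
  · intro δ hδ m hm hcon' u hu
    by_contra hcon
    push Not at hcon
    obtain ⟨p₀, hp₀, hup₀⟩ := hcon
    -- largest power of X dividing everything
    have hex : ∃ t : ℕ, ¬ ∀ p ∈ tri (3 * δ), Polynomial.X ^ t ∣ u p := by
      refine ⟨(u p₀).natDegree + 1, ?_⟩
      intro h
      have h1 := h p₀ hp₀
      have h2 := Polynomial.natDegree_le_of_dvd h1 hup₀
      rw [Polynomial.natDegree_X_pow] at h2
      omega
    classical
    have hfind := Nat.find_spec hex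
    have hmin : ∀ t < Nat.find hex, ∀ p ∈ tri (3 * δ), Polynomial.X ^ t ∣ u p := by
      intro t ht
      have := Nat.find_min hex ht
      push Not at this
      exact this
    have hpos : 0 < Nat.find hex := by
      rw [Nat.pos_iff_ne_zero]
      intro h0
      rw [h0] at hfind
      apply hfind
      intro p _
      simp
    obtain ⟨t, ht⟩ : ∃ t, Nat.find hex = t + 1 := ⟨Nat.find hex - 1, by omega⟩
    have hdiv : ∀ p ∈ tri (3 * δ), ∃ r, u p = Polynomial.X ^ t * r := fun p hp =>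
      hmin t (by omega) p hp
    choose! r hr using hdiv
    rw [ht] at hfind
    push Not at hfind
    obtain ⟨p₁, hp₁, hnd⟩ := hfind
    have hVan : ∀ (m : ℕ) (x₀ y₀ z₀ : Polynomial (PowerSeries k)),
        Van (3 * δ) m u x₀ y₀ z₀ → Van (3 * δ) m r x₀ y₀ z₀ := by
      intro m x₀ y₀ z₀ h i j hij
      have h1 := h i j hij
      have h2 : Polynomial.X ^ t * ∑ p ∈ tri (3 * δ), r p * (p.1.choose i : Polynomial (PowerSeries k))
          * (p.2.choose j : Polynomial (PowerSeries k)) * x₀ ^ (p.1 - i) * y₀ ^ (p.2 - j)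
          * z₀ ^ (3 * δ - p.1 - p.2) = 0 := by
        rw [← h1, Finset.mul_sum]
        apply Finset.sum_congr rfl
        intro p hp
        rw [hr p hp]; ring
      exact (mul_eq_zero.mp h2).resolve_left (pow_ne_zero _ Polynomial.X_ne_zero)
    have hcore := core' y ha g hg ξ hξ hlam hz δ hδ m hm hcon' r
      (by
        have := hVan _ _ _ _ (hu 0)
        simpa using this)
      (by
        intro j hj0
        have := hVan _ _ _ _ (hu j)
        simpa [hj0] using this)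
      p₁ hp₁
    apply hnd
    rw [hr p₁ hp₁, pow_succ]
    exact mul_dvd_mul_left _ (Polynomial.X_dvd_iff.mpr hcore)

end Pool.Agent.KS6_77.SP
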