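import Pool.Graph.R_seed8.H957R2.SE.Main

/-!
Positivity of `(37 x - 18 f; 1, 2^9)` on the symmetric square of the Tate curve, blown up in ten
points of the curve `{0} + E`: every symmetric quasi-periodic function `H ≠ 0` is restricted to the
ten curves `U = V / x_j` and to `U = 1` after removing them as components.
-/

noncomputable section

open PowerSeries

namespace Pool.Agent.KS6_77.SP

open Pool.Agent.H957R2.SE

variable {k : Type*} [Field k]

/-- The two quasi-periodicities of a symmetric function. -/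
theorem QP2_of_sym' (a β : ℤ) (C₁ : k) (f : RR2 k) (hs : Sw f = f)
    (h : ∀ m l j : ℤ, c2 f m l (j - m) = C₁ * c2 f (m + a) (l - β) j) :
    QP2 0 (-β) a 0 C₁ f ∧ QP2 1 (a - β) (a - β) β (C₁ ^ 2) f := by
  have hsym : ∀ m l j : ℤ, c2 f m l j = c2 f l m j := by
    intro m l j
    conv_lhs => rw [← hs]
    rw [c2_Sw]
  have h1 : QP2 0 (-β) a 0 C₁ f := by
    intro m l j
    rw [show j - (0 * m + l) = j - l by ring, hsym m l, h l m j, hsym, sub_zero,
      show m - β = m + -β by ring]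
  refine ⟨h1, ?_⟩
  intro m l j
  have h2 := h m l (j - l)
  have h3 := h1 (m + a) (l - β) (j - β)
  rw [show j - β - (0 * (m + a) + (l - β)) = j - l by ring,
    show m + a + -β = m + (a - β) by ring, show l - β + a = l + (a - β) by ring,
    sub_zero] at h3
  rw [show j - (1 * m + l) = j - l - m by ring, h2, h3]
  ring

/-- Degree and product of the zeros of a theta function of integral degree `d`. -/
theorem RLz {ι : Type*} (s : Finset ι) (x : ι → kˣ) (hx : Set.InjOn x s) (μ : ι → ℕ) (d c : ℤ)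
    (C₀ : kˣ) (h : RR k) (hq : QP d c (C₀ : k) h) (hd : ∀ i ∈ s, lin (x i) ^ μ i ∣ h)
    (h0 : h ≠ 0) : (∑ i ∈ s, (μ i : ℤ)) ≤ d ∧
      ((∑ i ∈ s, (μ i : ℤ)) = d → ∏ i ∈ s, (-(x i)) ^ μ i = C₀) := by
  have hd0 : 0 ≤ d := by
    by_contra hneg
    push Not at hneg
    apply h0
    set n : ℕ := (-d).toNat with hn
    have hnd : (n : ℤ) = -d := by omega
    have hθ : (theta (1 : kˣ) : RR k) ≠ 0 := by
      intro h'
      exact theta_not_X_dvd (1 : kˣ) (h' ▸ dvd_zero _)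
    have h1 : QP ((0 : ℕ) : ℤ) c ((C₀ * (-1) ^ n : kˣ) : k) (h * theta 1 ^ n) := by
      have h2 := hq.mul ((theta_QP (1 : kˣ)).pow n)
      have e1 : d + (n : ℤ) * 1 = ((0 : ℕ) : ℤ) := by push_cast; omega
      have e2 : c + (n : ℤ) * 0 = c := by ring
      rw [e1, e2] at h2
      have e3 : (C₀ : k) * (-((1 : kˣ) : k)) ^ n = ((C₀ * (-1) ^ n : kˣ) : k) := by
        push_cast; rfl
      rw [e3] at h2
      exact h2
    have h3 : h * theta 1 ^ n = 0 := by
      refine RL ({()} : Finset Unit) (fun _ => (1 : kˣ)) (by simp) (fun _ => n) 0 c _ _ h1 ?_ ?_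
      · intro i _
        have : lin (1 : kˣ) ∣ theta (1 : kˣ) := by
          obtain ⟨u, hu⟩ := theta_lin (1 : kˣ)
          exact ⟨u, hu⟩
        exact Dvd.dvd.mul_left (pow_dvd_pow_of_dvd this n) _
      · left
        simp
        omega
    exact (mul_eq_zero.mp h3).resolve_right (pow_ne_zero _ hθ)
  obtain ⟨D, rfl⟩ := Int.eq_ofNat_of_zero_le hd0
  have key : ¬ (D < ∑ i ∈ s, μ i ∨ (D = ∑ i ∈ s, μ i ∧ ∏ i ∈ s, (-(x i)) ^ μ i ≠ C₀)) := fun hh =>
    h0 (RL s x hx μ D c C₀ h hq hd hh)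
  push Not at key
  constructor
  · exact_mod_cast key.1
  · intro h1
    exact key.2 (by exact_mod_cast h1.symm)

/-- Maximal power of a linear factor. -/
theorem exists_max (x : (LP k)ˣ) (H : RR2 k) (h : H ≠ 0) :
    ∃ (r : ℕ) (g : RR2 k), H = lin x ^ r * g ∧ ¬ lin x ∣ g := by
  have h1 : ∃ r : ℕ, ¬ lin x ^ r ∣ H := by
    by_contra hc
    push Not at hc
    exact h (eq_zero_of_pow x H hc)
  classical
  have h2 := Nat.find_spec h1
  have h3 : Nat.find h1 ≠ 0 := by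
    intro h0
    rw [h0, pow_zero] at h2
    exact h2 (one_dvd _)
  obtain ⟨r, hr⟩ := Nat.exists_eq_succ_of_ne_zero h3
  have h4 := Nat.find_min h1 (show r < Nat.find h1 by omega)
  push Not at h4
  obtain ⟨g, hg⟩ := h4
  refine ⟨r, g, hg, ?_⟩
  rintro ⟨g', rfl⟩
  apply h2
  rw [hr, hg]
  exact ⟨g', by rw [pow_succ]; ring⟩

/-- Restriction to the curve `U = V / x`. -/
theorem ineqA (x : kˣ) (hx : x ≠ 1) (a β : ℤ) (C₁ : kˣ) (H g : RR2 k)
    (hQ : QP2 1 (a - β) (a - β) β ((C₁ : k) ^ 2) H) (μ r s : ℕ) (h1 : ep ^ μ ∣ BT x H)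
    (hH : H = lin (yV x⁻¹ 1) ^ r * g) (hg : ¬ lin (yV x⁻¹ 1) ∣ g) (hV : KK (lin 1) ^ s ∣ H) :
    (((μ - r : ℕ) : ℤ) + s ≤ 2 * (a - β)) ∧
      (((μ - r : ℕ) : ℤ) + s = 2 * (a - β) →
        (-x) ^ (μ - r) * (-1) ^ s = C₁ ^ 2 * x ^ (a - β)) := by
  have hV' : KK (lin 1) ^ s ∣ g := by
    refine (KK_lin_prime 1).pow_dvd_of_dvd_mul_left s ?_ (hH ▸ hV)
    intro h2
    refine not_dvd2 1 x⁻¹ 1 1 ?_ ((KK_lin_prime 1).dvd_of_dvd_pow h2)
    rw [one_zpow, mul_one]
    intro h3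
    exact hx (by rw [← inv_inv x, ← h3, inv_one])
  have hgo : ep ^ (μ - r) ∣ BT x g := by
    rw [hH, map_mul, map_pow, BT_lin1] at h1
    exact ep_pow_dvd (Polynomial.X_sub_C_ne_zero _) _ _ _ h1
  have hq := QP2_res x⁻¹ 1 _ _ _ _ g (QP2_div_pow _ _ _ _ _ _ r _ (hH ▸ hQ))
  have hz : EV (yV x⁻¹ 1) g ≠ 0 := by
    intro h
    exact hg ((EV_eq_zero_iff _ _).mp h)
  have hq' : QP (2 * (a - β)) (β - r * 1) ((C₁ ^ 2 * x⁻¹ ^ (-(a - β)) : kˣ) : k)
      (EV (yV x⁻¹ 1) g) := by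
    convert hq using 1
    · ring
    · push_cast
      rfl
  obtain ⟨h2, h3⟩ := RLz (Finset.univ : Finset (Fin 2)) ![x, 1] (by
    intro i _ j _ hij
    fin_cases i <;> fin_cases j <;> simp_all) ![μ - r, s] _ _ _ _ hq' (by
      intro i _
      fin_cases i
      · exact ord_res1 x g _ hgo
      · have := map_dvd (EV (yV x⁻¹ 1)) hV'
        rw [map_pow, EV_KK] at this
        exact this) hz
  rw [Fin.sum_univ_two] at h2 h3
  rw [Fin.prod_univ_two] at h3
  simp only [Matrix.cons_val_zero, Matrix.cons_val_one] at h2 h3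
  refine ⟨h2, fun h4 => ?_⟩
  rw [h3 h4, inv_zpow, zpow_neg, inv_inv]

/-- Restriction to the curve `U = 1`. -/
theorem ineqU (x : Fin 10 → kˣ) (hx1 : ∀ j, x j ≠ 1) (hxx : ∀ i j, i ≠ j → x i ≠ x j)
    (hxi : ∀ i j, x i * x j ≠ 1) (a β : ℤ) (C₁ : kˣ) (H g : RR2 k)
    (hQ : QP2 0 (-β) a 0 (C₁ : k) H) (μ r : Fin 10 → ℕ) (s : ℕ)
    (h1 : ∀ j, ep ^ μ j ∣ BT (x j) H) (hH : H = lin (yV 1 0) ^ s * g)
    (hg : ¬ lin (yV 1 0) ∣ g) (hV : KK (lin 1) ^ s ∣ H)
    (hr : ∀ j, lin (yV (x j) 1) ^ r j ∣ H) :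
    (∑ j, ((μ j - s : ℕ) : ℤ)) + (∑ j, (r j : ℤ)) + s ≤ a := by
  have hVg : KK (lin 1) ^ s ∣ g := by
    refine (KK_lin_prime 1).pow_dvd_of_dvd_mul_left s ?_ (hH ▸ hV)
    intro h2
    refine not_dvd2 1 1 (x 0) 0 ?_ ((KK_lin_prime 1).dvd_of_dvd_pow h2)
    simpa using hx1 0
  have hBg : ∀ j, lin (yV (x j) 1) ^ r j ∣ g := by
    intro j
    refine (lin_prime _).pow_dvd_of_dvd_mul_left (r j) ?_ (hH ▸ hr j)
    intro h2
    exact not_dvd1 _ _ 1 0 one_ne_zero ((lin_prime _).dvd_of_dvd_pow h2)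
  have hq := QP2_res 1 0 (-β) a _ _ g (QP2_div_pow _ _ _ _ _ _ s _ (hH ▸ hQ))
  have hz : EV (yV 1 0) g ≠ 0 := by
    intro h
    exact hg ((EV_eq_zero_iff _ _).mp h)
  have hq' : QP a 0 (C₁ : k) (EV (yV 1 0) g) := by
    convert hq using 1
    · ring
    · ring
    · simp
  have hxne : ∀ i j, x i ≠ (x j)⁻¹ := by
    intro i j h
    apply hxi i j
    rw [h, inv_mul_cancel]
  obtain ⟨h2, -⟩ := RLz (Finset.univ : Finset (Fin 10 ⊕ Fin 10 ⊕ Unit))
    (Sum.elim x (Sum.elim (fun j => (x j)⁻¹) (fun _ => 1))) (by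
      intro i _ j _ hij
      rcases i with i | i | i <;> rcases j with j | j | j <;> simp only [Sum.elim_inl, Sum.elim_inr] at hij
      · by_contra hne
        exact hxx i j (fun h => hne (by rw [h])) hij
      · exact absurd hij (hxne i j)
      · exact absurd hij (hx1 i)
      · exact absurd hij.symm (hxne j i)
      · by_contra hne
        exact hxx i j (fun h => hne (by rw [h])) (inv_injective hij)
      · exact absurd (inv_eq_one.mp hij) (hx1 i)
      · exact absurd hij.symm (hx1 j)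
      · exact absurd (inv_eq_one.mp hij.symm) (hx1 j)
      · rfl)
    (Sum.elim (fun j => μ j - s) (Sum.elim r (fun _ => s))) a 0 C₁ _ hq' (by
      intro i _
      rcases i with i | i | i
      · simp only [Sum.elim_inl]
        apply ord_res0
        apply ep_pow_dvd Polynomial.X_ne_zero
        have h3 := h1 i
        rw [hH, map_mul, map_pow, BT_lin0] at h3
        exact h3
      · simp only [Sum.elim_inl, Sum.elim_inr]
        have h3 := map_dvd (EV (yV 1 0)) (hBg i)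
        rw [map_pow, EV_lin] at h3
        refine dvd_trans (pow_dvd_pow_of_dvd ?_ _) h3
        refine ⟨PowerSeries.C (LaurentPolynomial.C (-((x i : kˣ) : k))), ?_⟩
        unfold lin
        rw [← map_mul]
        congr 1
        rw [yV_val, yV_val, uT_val, LaurentPolynomial.T_zero]
        have h : (LaurentPolynomial.C ((x i : kˣ) : k) : LP k) *
            LaurentPolynomial.C ((((x i)⁻¹ : kˣ)) : k) = 1 := by
          rw [← map_mul, Units.mul_inv, map_one]
        rw [map_neg, Units.val_one, map_one]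
        linear_combination -h
      · simp only [Sum.elim_inr]
        have := map_dvd (EV (yV 1 0)) hVg
        rw [map_pow, EV_KK] at this
        exact this) hz
  rw [Fintype.sum_sum_type, Fintype.sum_sum_type] at h2
  simpa [add_assoc] using h2

/-- The exponents of the ten points, indexed by `Fin 10`. -/
def ef (j : Fin 10) : ℤ := ee j.val

theorem ef_zero : ef 0 = -45 := rfl

theorem ef_succ (j : Fin 9) : ef j.succ = (j : ℤ) + 1 := by
  unfold ef ee
  rw [if_neg (by simp)]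
  simp

theorem ef_ne_zero (j : Fin 10) : ef j ≠ 0 := by
  revert j; decide

theorem ef_inj (i j : Fin 10) (h : i ≠ j) : ef i ≠ ef j := by
  revert i j; decide

theorem ef_add (i j : Fin 10) : ef i + ef j ≠ 0 := by
  revert i j; decide

/-- The arithmetic of the intersection numbers. -/
theorem arith (δ s S ε τ : ℤ) (M R P Q : Fin 10 → ℤ) (e : Fin 10 → ℤ) (he0 : e 0 = -45)
    (he : ∀ j : Fin 9, e j.succ = (j : ℤ) + 1)
    (hR : ∀ j, 0 ≤ R j) (hQ : ∀ j, 0 ≤ Q j) (hδ : 0 < δ) (hS : S = ∑ j, M j)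
    (hε : ε = 10 * δ - S - (S - 9 * δ)) (hτ : τ = ∑ j, e j * M j)
    (hY : ∀ j, δ - M j - R j ≤ P j) (hZ : ∀ j, δ - M j - s ≤ Q j)
    (hX : ∀ j, P j + s ≤ 2 * ε) (hU : ∑ j, Q j + ∑ j, R j + s ≤ 10 * δ - S)
    (hcon : 333 * δ ≤ 35 * S + M 0)
    (hprod : ∀ j, P j + s = 2 * ε → e j * P j = -2 * τ + e j * ε) : False := by
  -- the slack identity
  have hsum1 : ∑ j : Fin 9, (2 * ε - s - P j.succ) + ∑ j : Fin 9, (P j.succ - (δ - M j.succ - R j.succ))
      + ∑ j : Fin 10, (Q j - (δ - M j - s)) + ((10 * δ - S) - (∑ j, Q j + ∑ j, R j + s)) + R 0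
      + (35 * S + M 0 - 333 * δ) = 0 := by
    simp only [Fin.sum_univ_succ, Fin.sum_univ_zero] at hS ⊢
    subst hε hS
    ring
  have n1 : 0 ≤ ∑ j : Fin 9, (2 * ε - s - P j.succ) :=
    Finset.sum_nonneg fun j _ => by have := hX j.succ; linarith
  have n2 : 0 ≤ ∑ j : Fin 9, (P j.succ - (δ - M j.succ - R j.succ)) :=
    Finset.sum_nonneg fun j _ => by have := hY j.succ; linarith
  have n3 : 0 ≤ ∑ j : Fin 10, (Q j - (δ - M j - s)) :=
    Finset.sum_nonneg fun j _ => by have := hZ j; linarith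
  have hR0 := hR 0
  have z1 : ∑ j : Fin 9, (2 * ε - s - P j.succ) = 0 := by linarith
  have z2 : ∑ j : Fin 9, (P j.succ - (δ - M j.succ - R j.succ)) = 0 := by linarith
  have z3 : ∑ j : Fin 10, (Q j - (δ - M j - s)) = 0 := by linarith
  have r0 : R 0 = 0 := by linarith
  have w0 : ∑ j, Q j + ∑ j, R j + s = 10 * δ - S := by linarith
  have t0 : 35 * S + M 0 = 333 * δ := by linarith
  have a1 : ∀ j : Fin 9, P j.succ + s = 2 * ε := by
    intro j
    have := (Finset.sum_eq_zero_iff_of_nonneg (fun j _ => by have := hX j.succ; linarith)).mp z1 j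
      (Finset.mem_univ _)
    linarith
  have a2 : ∀ j : Fin 9, P j.succ = δ - M j.succ - R j.succ := by
    intro j
    have := (Finset.sum_eq_zero_iff_of_nonneg (fun j _ => by have := hY j.succ; linarith)).mp z2 j
      (Finset.mem_univ _)
    linarith
  have a3 : ∀ j : Fin 10, Q j = δ - M j - s := by
    intro j
    have := (Finset.sum_eq_zero_iff_of_nonneg (fun j _ => by have := hZ j; linarith)).mp z3 j
      (Finset.mem_univ _)
    linarith
  -- the product relations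
  have b1 := hprod _ (a1 0)
  have b2 := hprod _ (a1 1)
  have p1 := a1 0
  have p2 := a1 1
  rw [he] at b1 b2
  simp only [Fin.val_zero, Fin.val_one, Nat.cast_zero, Nat.cast_one, zero_add, one_mul] at b1 b2
  have hs2 : s = ε := by linarith
  have hτ0 : τ = 0 := by linarith
  -- conclusion
  have c0 := hX 0
  have c1 := hY 0
  have c2 := hQ 0
  rw [a3 0] at c2
  have d0 : M 0 = δ - s := by linarith
  have d1 : ∀ j : Fin 9, M j.succ = M 0 - R j.succ := by
    intro j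
    have h1 := a1 j
    have h2 := a2 j
    linarith
  rw [hτ0, Fin.sum_univ_succ, he0] at hτ
  rw [Fin.sum_univ_succ] at hS
  simp only [he, d1] at hτ hS
  simp only [Fin.sum_univ_succ, Fin.sum_univ_zero, Fin.val_zero, Fin.val_succ] at hτ hS
  push_cast at hτ hS
  have R1 := hR 1
  have R2 := hR 2
  have R3 := hR 3
  have R4 := hR 4
  have R5 := hR 5
  have R6 := hR 6
  have R7 := hR 7
  have R8 := hR 8
  have R9 := hR 9
  linarith

/-- Positivity on the symmetric square. -/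
theorem H1_pos (ξ : kˣ) (hξ : ∀ i : ℤ, i ≠ 0 → ξ ^ i ≠ 1) (δ : ℕ) (hδ : 0 < δ) (m : Fin 10 → ℕ)
    (H : RR2 k) (hH0 : H ≠ 0) (hs : Sw H = H)
    (hQ : ∀ p l j : ℤ, c2 H p l (j - p)
      = ((((-1) ^ (∑ i, m i) * ξ ^ (-∑ i, ef i * m i) : kˣ)) : k) *
        c2 H (p + (10 * δ - ∑ i, (m i : ℤ))) (l - (∑ i, (m i : ℤ) - 9 * δ)) j)
    (h1 : ∀ j, ep ^ (δ - m j) ∣ BT (ξ ^ ef j) H) :
    35 * (∑ i, (m i : ℤ)) + m 0 < 333 * δ := by
  by_contra hcon
  push Not at hcon
  have hinj : ∀ i j : ℤ, ξ ^ i = ξ ^ j → i = j := by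
    intro i j hij
    by_contra hne
    apply hξ (i - j) (sub_ne_zero.mpr hne)
    rw [zpow_sub, hij, mul_inv_cancel]
  set S : ℤ := ∑ i, (m i : ℤ) with hS
  set C₁ : kˣ := (-1) ^ (∑ i, m i) * ξ ^ (-∑ i, ef i * m i) with hC₁
  obtain ⟨hQ0, hQ1⟩ := QP2_of_sym' (10 * δ - S) (S - 9 * δ) (C₁ : k) H hs hQ
  obtain ⟨s, g, hg, hg'⟩ := exists_max (yV 1 0) H hH0
  have hV : KK (lin 1) ^ s ∣ H := sym0 hs ⟨g, hg⟩
  choose r gA hgA hgA' using fun j : Fin 10 => exists_max (yV (ξ ^ ef j)⁻¹ 1) H hH0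
  have hrev : ∀ j, lin (yV (ξ ^ ef j) 1) ^ r j ∣ H := by
    intro j
    have := sym1 hs ⟨gA j, hgA j⟩
    rwa [inv_inv] at this
  have hA := fun j : Fin 10 => ineqA (ξ ^ ef j) (hξ _ (ef_ne_zero j)) (10 * δ - S) (S - 9 * δ) C₁ H
    (gA j) hQ1 (δ - m j) (r j) s (h1 j) (hgA j) (hgA' j) hV
  have hU := ineqU (fun j => ξ ^ ef j) (fun j => hξ _ (ef_ne_zero j))
    (fun i j hij h => ef_inj i j hij (hinj _ _ h))
    (fun i j => by
      show ξ ^ ef i * ξ ^ ef j ≠ 1
      rw [← zpow_add]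
      exact hξ _ (ef_add i j)) (10 * δ - S) (S - 9 * δ) C₁ H g hQ0 (fun j => δ - m j) r s h1 hg hg'
    hV hrev
  -- lower bounds for the truncated differences
  have hY : ∀ j, (δ : ℤ) - m j - r j ≤ ((δ - m j - r j : ℕ) : ℤ) := fun j => by omega
  have hZ : ∀ j, (δ : ℤ) - m j - s ≤ ((δ - m j - s : ℕ) : ℤ) := fun j => by omega
  have hR : ∀ j, (0 : ℤ) ≤ r j := fun j => by positivity
  have hX := fun j => (hA j).1
  -- the two product relations
  have hC2 : C₁ ^ 2 = ξ ^ (-2 * ∑ i, ef i * m i) := by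
    rw [hC₁, mul_pow, ← pow_mul, mul_comm _ 2, pow_mul, neg_one_sq, one_pow, one_mul,
      ← zpow_natCast, ← zpow_mul]
    congr 1
    push_cast
    ring
  have hprod : ∀ j : Fin 10, (((δ - m j - r j : ℕ) : ℤ) + s = 2 * (10 * δ - S - (S - 9 * δ))) →
      ef j * ((δ - m j - r j : ℕ) : ℤ) = -2 * (∑ i, ef i * m i) +
        ef j * (10 * δ - S - (S - 9 * δ)) := by
    intro j hj
    have h2 := (hA j).2 hj
    have h3 : (-(ξ ^ ef j)) ^ (δ - m j - r j) * (-1) ^ s = ξ ^ (ef j * ((δ - m j - r j : ℕ) : ℤ)) := by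
      rw [neg_pow, mul_right_comm, ← pow_add]
      have hev : Even (δ - m j - r j + s) := by
        have : Even (((δ - m j - r j + s : ℕ) : ℤ)) := by
          push_cast
          rw [hj]
          exact even_two_mul _
        exact_mod_cast this
      rw [hev.neg_one_pow, one_mul, zpow_mul, zpow_natCast]
    rw [h3, hC2, ← zpow_mul, ← zpow_add] at h2
    exact hinj _ _ h2
  refine arith δ s S _ _ (fun j => (m j : ℤ)) (fun j => (r j : ℤ))
    (fun j => ((δ - m j - r j : ℕ) : ℤ)) (fun j => ((δ - m j - s : ℕ) : ℤ)) ef ef_zero ef_succ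
    hR (fun j => by positivity) (by exact_mod_cast hδ) hS rfl rfl hY hZ ?_ hU hcon ?_
  · intro j
    exact (hA j).1
  · intro j hj
    exact hprod j hj

end Pool.Agent.KS6_77.SP
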