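import Pool.Agent.KS6_77.SP.Pos

/-!
Division by the ten fibres, for arbitrary multiplicities.
-/

noncomputable section

open PowerSeries

namespace Pool.Agent.KS6_77.SP

open Pool.Agent.H957R2.SE

variable {k : Type*} [Field k]

/-- The product of the fibre thetas. -/
def Thm (ξ : kˣ) (m : Fin 10 → ℕ) : RR2 k := ∏ j, theta (xV (ξ ^ ef j)) ^ m j

theorem Thm_ne_zero (ξ : kˣ) (m : Fin 10 → ℕ) : Thm ξ m ≠ 0 := by
  unfold Thm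
  rw [Finset.prod_ne_zero_iff]
  intro j _
  apply pow_ne_zero
  intro h
  exact theta_not_X_dvd (xV (ξ ^ ef j)) (h ▸ dvd_zero _)

theorem Thm_eq (ξ : kˣ) (m : Fin 10 → ℕ) :
    Thm ξ m = zUV (∏ j, theta (ξ ^ ef j) ^ m j) := by
  unfold Thm
  rw [map_prod]
  apply Finset.prod_congr rfl
  intro j _
  rw [map_pow, zUV_theta]

theorem Sw_Thm (ξ : kˣ) (m : Fin 10 → ℕ) : Sw (Thm ξ m) = Thm ξ m := by
  rw [Thm_eq, Sw_zUV]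

theorem mult_calc' (ξ : kˣ) (m : Fin 10 → ℕ) (D : ℤ) :
    ((uC 1 * uT ^ (-D) : (LP k)ˣ) * ∏ j, ((-(xV (ξ ^ ef j)))⁻¹) ^ m j)
    = uC ((-1) ^ (∑ i, m i) * ξ ^ (-∑ i, ef i * m i)) * uT ^ (∑ i, (m i : ℤ) - D) := by
  have h1 : ∀ j, ((-(xV (ξ ^ ef j)))⁻¹ : (LP k)ˣ) ^ m j
      = (-1) ^ m j * (uC ξ) ^ (-(ef j * (m j : ℤ))) * uT ^ m j := by
    intro j
    have h2 : ((-(xV (ξ ^ ef j)))⁻¹ : (LP k)ˣ) = (-1) * (uC ξ) ^ (-(ef j)) * uT := by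
      unfold xV
      rw [← uC_zpow, inv_neg, mul_inv, inv_inv, zpow_neg]
      rw [neg_one_mul, neg_mul]
    rw [h2, mul_pow, mul_pow, ← neg_mul, zpow_mul, zpow_natCast]
  simp only [h1]
  rw [Finset.prod_mul_distrib, Finset.prod_mul_distrib, Finset.prod_pow_eq_pow_sum,
    Finset.prod_pow_eq_pow_sum, prod_zpow_eq, uC_one, one_mul, Finset.sum_neg_distrib]
  have h4 : (uT : (LP k)ˣ) ^ (∑ i, m i) = uT ^ (∑ i, (m i : ℤ)) := by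
    rw [← zpow_natCast]; push_cast; rfl
  have h5 : (uC ((-1 : kˣ) ^ (∑ i, m i) * ξ ^ (-∑ i, ef i * m i)) : (LP k)ˣ)
      = (-1) ^ (∑ i, m i) * uC ξ ^ (-∑ i, ef i * m i) := by
    rw [uC_mul, ← uC_zpow]
    congr 1
    unfold uC
    rw [map_pow]
    congr 1
    ext : 1
    simp
  rw [h4, h5, sub_eq_add_neg, zpow_add]
  rw [mul_left_comm, mul_comm (uT ^ (-D)) (uT ^ (∑ i, (m i : ℤ)))]

theorem exists_H1' (ξ : kˣ) (hξ : ∀ i : ℤ, i ≠ 0 → ξ ^ i ≠ 1) (δ : ℕ) (m : Fin 10 → ℕ)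
    (hm : ∑ i, m i + 1 ≤ 10 * δ) (H : RR2 k)
    (hq : QP (10 * δ) 0 ((uC 1 * uT ^ (-(9 * δ : ℤ)) : (LP k)ˣ) : LP k) H)
    (hd : ∀ j, zUV (lin (ξ ^ ef j)) ^ m j ∣ H) :
    ∃ H₁ : RR2 k, H = Thm ξ m * H₁ ∧
      ∀ p l j : ℤ, c2 H₁ p l (j - p)
      = ((((-1) ^ (∑ i, m i) * ξ ^ (-∑ i, ef i * m i) : kˣ)) : k) *
        c2 H₁ (p + (10 * δ - ∑ i, (m i : ℤ))) (l - (∑ i, (m i : ℤ) - 9 * δ)) j := by
  obtain ⟨H₁, h1, h2⟩ := DLs Finset.univ (fun j => xV (ξ ^ ef j))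
    (by
      intro i hi j hj hij
      by_contra hne
      exact ef_inj i j hne (xpow_inj ξ hξ (xV_injective hij)))
    m (10 * δ) 0 (uC 1 * uT ^ (-(9 * δ : ℤ)))
    (by exact_mod_cast hm) H hq
    (fun j _ => (lin_xV_pow_dvd_iff _ _ _).mpr (hd j))
  refine ⟨H₁, h1, ?_⟩
  rw [mult_calc'] at h2
  have h3 := c2_of_QP _ _ _ _ h2
  intro p l j
  rw [h3]
  push_cast
  rfl

theorem order_H1' (ξ : kˣ) (hξ : ∀ i : ℤ, i ≠ 0 → ξ ^ i ≠ 1) (m : Fin 10 → ℕ) (H₁ : RR2 k)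
    (i : Fin 10) (N : ℕ)
    (h : ep ^ (m i + N) ∣ BT (ξ ^ ef i) (Thm ξ m * H₁)) : ep ^ N ∣ BT (ξ ^ ef i) H₁ := by
  rw [Thm_eq, map_mul, ← Finset.mul_prod_erase _ _ (Finset.mem_univ i), map_mul, map_mul, map_pow,
    map_pow, mul_assoc] at h
  have h1 := ep_order_zUV_theta (ξ ^ ef i) (m i) N _ h
  refine Prime.pow_dvd_of_dvd_mul_left ep_prime_aux N ?_ h1
  rw [ep_dvd_BT_zUV]
  intro h2
  obtain ⟨j, hj, h4⟩ := (Prime.dvd_finsetProd_iff (lin_prime _) _).mp h2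
  have h5 := (lin_prime _).dvd_of_dvd_pow h4
  refine lin_not_dvd_theta ?_ h5
  intro h6
  rw [Finset.mem_erase] at hj
  exact ef_inj j i hj.1 (xpow_inj ξ hξ h6.symm)

/-- The symmetric function attached to a form of degree `3 δ` with multiplicities `m`. -/
theorem H_zero' (ξ : kˣ) (hξ : ∀ i : ℤ, i ≠ 0 → ξ ^ i ≠ 1) (δ : ℕ) (hδ : 0 < δ) (m : Fin 10 → ℕ)
    (hm : ∑ i, m i + 1 ≤ 10 * δ) (hcon : 333 * (δ : ℤ) ≤ 35 * (∑ i, (m i : ℤ)) + m 0)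
    (H : RR2 k) (hs : Sw H = H)
    (hq : QP (10 * δ) 0 ((uC 1 * uT ^ (-(9 * δ : ℤ)) : (LP k)ˣ) : LP k) H)
    (hd : ∀ j, zUV (lin (ξ ^ ef j)) ^ m j ∣ H)
    (ho : ∀ j, ep ^ δ ∣ BT (ξ ^ ef j) H) : H = 0 := by
  obtain ⟨H₁, h1, h2⟩ := exists_H1' ξ hξ δ m hm H hq hd
  have hs1 : Sw H₁ = H₁ := by
    have h3 : Thm ξ m * Sw H₁ = Thm ξ m * H₁ := by
      rw [← h1, ← hs]
      conv_rhs => rw [h1]
      rw [map_mul, Sw_Thm]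
    exact mul_left_cancel₀ (Thm_ne_zero ξ m) h3
  by_cases hz : H₁ = 0
  · rw [h1, hz, mul_zero]
  exfalso
  have := H1_pos ξ hξ δ hδ m H₁ hz hs1 h2 (by
    intro j
    rcases Nat.lt_or_ge δ (m j) with h | h
    · rw [Nat.sub_eq_zero_of_le h.le, pow_zero]
      exact one_dvd _
    · apply order_H1' ξ hξ m H₁ j
      rw [← h1, Nat.add_sub_cancel' h]
      exact ho j)
  linarith

end Pool.Agent.KS6_77.SP
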